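import Pool.Agent.Helper53.WR.Defs

/-!
# Random subsets with independent elements

Weights on the subsets of a finite set `V ⊆ ℕ` and the moment generating functions of the number
of elements in a given set and of the number of pairs with a given sum.
-/

set_option autoImplicit false

namespace Pool.Agent.Helper53.FB

open Finset
open Pool.Agent.Helper53.WR (repF)

/-- The probability of `R` as a random subset of `V` with independent elements. -/
noncomputable def wt (p : ℕ → ℝ) (V R : Finset ℕ) : ℝ := (∏ x ∈ R, p x) * ∏ x ∈ V \ R, (1 - p x)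

/-- Number of `x ∈ R` with `2 x < n` and `n - x ∈ R`. -/
def pairs (n : ℕ) (R : Finset ℕ) : ℕ := (R.filter (fun x => 2 * x < n ∧ n - x ∈ R)).card

section
variable {p : ℕ → ℝ} {V : Finset ℕ}

lemma wt_nonneg (hp0 : ∀ x, 0 ≤ p x) (hp1 : ∀ x, p x ≤ 1) (V R : Finset ℕ) : 0 ≤ wt p V R := by
  unfold wt
  apply mul_nonneg
  · exact prod_nonneg (fun x _ => hp0 x)
  · exact prod_nonneg (fun x _ => by have := hp1 x; linarith)

lemma wt_sum (g : ℕ → ℝ) :
    ∑ R ∈ V.powerset, wt p V R * ∏ x ∈ R, g x = ∏ x ∈ V, (p x * g x + (1 - p x)) := by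
  rw [prod_add]
  apply sum_congr rfl
  intro R _
  unfold wt
  rw [prod_mul_distrib]
  ring

lemma wt_sum_one : ∑ R ∈ V.powerset, wt p V R = 1 := by
  have h := wt_sum (p := p) (V := V) (fun _ => 1)
  simp only [prod_const_one, mul_one] at h
  rw [h]
  apply prod_eq_one
  intro x _
  ring

lemma prod_ite_pow (R B : Finset ℕ) (A : ℝ) :
    ∏ x ∈ R, (if x ∈ B then A else 1) = A ^ (R ∩ B).card := by
  rw [prod_ite, prod_const, prod_const_one, mul_one, filter_mem_eq_inter]

lemma wt_linear (B : Finset ℕ) (A : ℝ) :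
    ∑ R ∈ V.powerset, wt p V R * A ^ (R ∩ B).card = ∏ x ∈ V ∩ B, (1 + (A - 1) * p x) := by
  have h := wt_sum (p := p) (V := V) (fun x => if x ∈ B then A else 1)
  simp only [prod_ite_pow] at h
  rw [h]
  have h2 : ∀ x ∈ V, (p x * (if x ∈ B then A else 1) + (1 - p x)) =
      if x ∈ B then (1 + (A - 1) * p x) else 1 := by
    intro x _
    split_ifs <;> ring
  rw [prod_congr rfl h2, prod_ite, prod_const_one, mul_one, filter_mem_eq_inter]

/-- Moment bound for the number of elements in a given set. -/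
lemma wt_linear_le (hp0 : ∀ x, 0 ≤ p x) (B : Finset ℕ) (A μ : ℝ) (hA : 1 ≤ A)
    (hμ : ∑ x ∈ V ∩ B, p x ≤ μ) :
    ∑ R ∈ V.powerset, wt p V R * A ^ (R ∩ B).card ≤ Real.exp (A * μ) := by
  rw [wt_linear]
  have h0 : 0 ≤ ∑ x ∈ V ∩ B, p x := sum_nonneg (fun x _ => hp0 x)
  calc ∏ x ∈ V ∩ B, (1 + (A - 1) * p x) ≤ ∏ x ∈ V ∩ B, Real.exp ((A - 1) * p x) := by
        apply prod_le_prod
        · intro x _
          have := hp0 x
          have : 0 ≤ (A - 1) * p x := mul_nonneg (by linarith) this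
          linarith
        · intro x _
          have := Real.add_one_le_exp ((A - 1) * p x)
          linarith
    _ = Real.exp (∑ x ∈ V ∩ B, (A - 1) * p x) := (Real.exp_sum _ _).symm
    _ ≤ Real.exp (A * μ) := by
        apply Real.exp_le_exp.mpr
        rw [← mul_sum]
        nlinarith

/-- The two halves: subsets of `V` are pairs of subsets of the lower and the upper half. -/
lemma wt_union (L U R1 R2 : Finset ℕ) (hLU : Disjoint L U) (h1 : R1 ⊆ L) (h2 : R2 ⊆ U) :
    wt p (L ∪ U) (R1 ∪ R2) = wt p L R1 * wt p U R2 := by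
  unfold wt
  have hd : Disjoint R1 R2 := Disjoint.mono h1 h2 hLU
  have e : (L ∪ U) \ (R1 ∪ R2) = (L \ R1) ∪ (U \ R2) := by
    ext x
    simp only [mem_sdiff, mem_union, not_or]
    constructor
    · rintro ⟨h | h, h3, h4⟩
      · exact Or.inl ⟨h, h3⟩
      · exact Or.inr ⟨h, h4⟩
    · rintro (⟨h, h3⟩ | ⟨h, h3⟩)
      · exact ⟨Or.inl h, h3, fun h4 => (disjoint_left.mp hLU h) (h2 h4)⟩
      · exact ⟨Or.inr h, fun h4 => (disjoint_left.mp hLU (h1 h4)) h, h3⟩
  have hd2 : Disjoint (L \ R1) (U \ R2) := Disjoint.mono sdiff_subset sdiff_subset hLU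
  rw [prod_union hd, e, prod_union hd2]
  ring

lemma sum_powerset_union {M : Type*} [AddCommMonoid M] (L U : Finset ℕ) (hLU : Disjoint L U)
    (F : Finset ℕ → M) :
    ∑ R ∈ (L ∪ U).powerset, F R = ∑ R1 ∈ L.powerset, ∑ R2 ∈ U.powerset, F (R1 ∪ R2) := by
  rw [← sum_product']
  symm
  apply sum_bij' (fun z _ => z.1 ∪ z.2) (fun R _ => (R ∩ L, R ∩ U))
  · intro z hz
    rw [mem_product, mem_powerset, mem_powerset] at hz
    rw [mem_powerset]
    exact union_subset_union hz.1 hz.2
  · intro R hR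
    rw [mem_product, mem_powerset, mem_powerset]
    exact ⟨inter_subset_right, inter_subset_right⟩
  · intro z hz
    rw [mem_product, mem_powerset, mem_powerset] at hz
    have e1 : (z.1 ∪ z.2) ∩ L = z.1 := by
      ext x
      simp only [mem_inter, mem_union]
      constructor
      · rintro ⟨h | h, h3⟩
        · exact h
        · exact absurd h3 (fun h3 => disjoint_left.mp hLU h3 (hz.2 h))
      · exact fun h => ⟨Or.inl h, hz.1 h⟩
    have e2 : (z.1 ∪ z.2) ∩ U = z.2 := by
      ext x
      simp only [mem_inter, mem_union]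
      constructor
      · rintro ⟨h | h, h3⟩
        · exact absurd h3 (fun h3 => disjoint_left.mp hLU (hz.1 h) h3)
        · exact h
      · exact fun h => ⟨Or.inr h, hz.2 h⟩
    exact Prod.ext e1 e2
  · intro R hR
    rw [mem_powerset] at hR
    rw [← inter_union_distrib_left]
    exact inter_eq_left.mpr hR
  · intro z _
    rfl

/-- Moment generating function of the number of pairs with a given sum. -/
lemma wt_pairs (n : ℕ) (A : ℝ) :
    ∑ R ∈ V.powerset, wt p V R * A ^ pairs n R =
      ∏ x ∈ V.filter (fun x => 2 * x < n ∧ n - x ∈ V), (1 + (A - 1) * (p x * p (n - x))) := by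
  classical
  set L := V.filter (fun x => 2 * x < n) with hL
  set U := V.filter (fun x => ¬ 2 * x < n) with hU
  have hLU : Disjoint L U := disjoint_filter_filter_not _ _ _
  have hV : V = L ∪ U := (filter_union_filter_not_eq _ _).symm
  have key : ∀ R1 ∈ L.powerset, ∀ R2 ∈ U.powerset,
      pairs n (R1 ∪ R2) = (R2 ∩ R1.image (fun x => n - x)).card := by
    intro R1 hR1 R2 hR2
    rw [mem_powerset] at hR1 hR2
    have hlow : ∀ x ∈ R1, 2 * x < n := fun x hx => (mem_filter.mp (hR1 hx)).2
    have hup : ∀ x ∈ R2, ¬ 2 * x < n := fun x hx => (mem_filter.mp (hR2 hx)).2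
    unfold pairs
    apply card_bij (fun x _ => n - x)
    · intro x hx
      rw [mem_filter, mem_union] at hx
      obtain ⟨hx1, hx2, hx3⟩ := hx
      have hxR1 : x ∈ R1 := by
        rcases hx1 with h | h
        · exact h
        · exact absurd hx2 (hup x h)
      rw [mem_inter, mem_image]
      refine ⟨?_, x, hxR1, rfl⟩
      rcases mem_union.mp hx3 with h | h
      · exact absurd (hlow _ h) (by omega)
      · exact h
    · intro x hx y hy hxy
      rw [mem_filter] at hx hy
      omega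
    · intro y hy
      rw [mem_inter, mem_image] at hy
      obtain ⟨hy1, x, hx, hxy⟩ := hy
      refine ⟨x, ?_, hxy⟩
      rw [mem_filter, mem_union]
      refine ⟨Or.inl hx, hlow x hx, ?_⟩
      rw [hxy]
      exact mem_union_right _ hy1
  have step1 : ∑ R ∈ V.powerset, wt p V R * A ^ pairs n R =
      ∑ R1 ∈ L.powerset, ∑ R2 ∈ U.powerset,
        wt p L R1 * (wt p U R2 * A ^ (R2 ∩ R1.image (fun x => n - x)).card) := by
    rw [hV, sum_powerset_union L U hLU]
    apply sum_congr rfl
    intro R1 hR1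
    apply sum_congr rfl
    intro R2 hR2
    rw [key R1 hR1 R2 hR2, wt_union L U R1 R2 hLU (mem_powerset.mp hR1) (mem_powerset.mp hR2)]
    ring
  rw [step1]
  have step2 : ∀ R1 ∈ L.powerset, ∑ R2 ∈ U.powerset,
        wt p L R1 * (wt p U R2 * A ^ (R2 ∩ R1.image (fun x => n - x)).card) =
      wt p L R1 * ∏ x ∈ R1, (if n - x ∈ V then 1 + (A - 1) * p (n - x) else 1) := by
    intro R1 hR1
    rw [mem_powerset] at hR1
    rw [← mul_sum, wt_linear]
    congr 1
    rw [prod_ite, prod_const_one, mul_one]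
    symm
    apply prod_bij (fun x _ => n - x)
    · intro x hx
      rw [mem_filter] at hx
      have hx2 : 2 * x < n := (mem_filter.mp (hR1 hx.1)).2
      rw [mem_inter, mem_image]
      refine ⟨?_, x, hx.1, rfl⟩
      rw [hU, mem_filter]
      exact ⟨hx.2, by omega⟩
    · intro x hx y hy hxy
      rw [mem_filter] at hx hy
      have hx2 : 2 * x < n := (mem_filter.mp (hR1 hx.1)).2
      have hy2 : 2 * y < n := (mem_filter.mp (hR1 hy.1)).2
      omega
    · intro y hy
      rw [mem_inter, mem_image] at hy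
      obtain ⟨hy1, x, hx, hxy⟩ := hy
      refine ⟨x, ?_, hxy⟩
      rw [mem_filter]
      refine ⟨hx, ?_⟩
      rw [hxy]
      exact (mem_filter.mp hy1).1
    · intro x _
      rfl
  rw [sum_congr rfl step2, wt_sum]
  have step3 : ∀ x ∈ L, (p x * (if n - x ∈ V then 1 + (A - 1) * p (n - x) else 1) + (1 - p x)) =
      if n - x ∈ V then 1 + (A - 1) * (p x * p (n - x)) else 1 := by
    intro x _
    split_ifs <;> ring
  rw [prod_congr rfl step3, prod_ite, prod_const_one, mul_one, hL, filter_filter]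

lemma wt_pairs_le (hp0 : ∀ x, 0 ≤ p x) (n : ℕ) (M : ℝ)
    (hM : ∑ x ∈ V.filter (fun x => 2 * x < n ∧ n - x ∈ V), p x * p (n - x) ≤ M) :
    ∑ R ∈ V.powerset, wt p V R * 2 ^ pairs n R ≤ Real.exp M := by
  rw [wt_pairs]
  calc _ ≤ ∏ x ∈ V.filter (fun x => 2 * x < n ∧ n - x ∈ V), Real.exp (p x * p (n - x)) := by
        apply prod_le_prod
        · intro x _
          have := mul_nonneg (hp0 x) (hp0 (n - x))
          norm_num
          linarith
        · intro x _
          have := Real.add_one_le_exp (p x * p (n - x))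
          norm_num
          linarith
    _ = Real.exp (∑ x ∈ V.filter (fun x => 2 * x < n ∧ n - x ∈ V), p x * p (n - x)) :=
        (Real.exp_sum _ _).symm
    _ ≤ _ := Real.exp_le_exp.mpr hM

lemma wt_no_pairs_le (hp0 : ∀ x, 0 ≤ p x) (hp1 : ∀ x, p x ≤ 1) (n : ℕ) (M : ℝ)
    (hM : M ≤ ∑ x ∈ V.filter (fun x => 2 * x < n ∧ n - x ∈ V), p x * p (n - x)) :
    ∑ R ∈ V.powerset, wt p V R * 0 ^ pairs n R ≤ Real.exp (-M) := by
  rw [wt_pairs]
  calc _ ≤ ∏ x ∈ V.filter (fun x => 2 * x < n ∧ n - x ∈ V), Real.exp (-(p x * p (n - x))) := by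
        apply prod_le_prod
        · intro x _
          have h1 := hp1 x
          have h2 := hp1 (n - x)
          have h3 := hp0 x
          have h4 := hp0 (n - x)
          nlinarith
        · intro x _
          have := Real.add_one_le_exp (-(p x * p (n - x)))
          linarith
    _ = Real.exp (∑ x ∈ V.filter (fun x => 2 * x < n ∧ n - x ∈ V), -(p x * p (n - x))) :=
        (Real.exp_sum _ _).symm
    _ ≤ _ := by
        apply Real.exp_le_exp.mpr
        rw [sum_neg_distrib]
        linarith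

/-- Ordered representations against pairs. -/
lemma repF_le_pairs (R : Finset ℕ) (n : ℕ) : repF R n ≤ 2 * pairs n R + 1 := by
  classical
  have h : (R ×ˢ R).filter (fun z => z.1 + z.2 = n) ⊆
      ((R.filter (fun x => 2 * x < n ∧ n - x ∈ R)).image (fun x => (x, n - x)) ∪
        (R.filter (fun x => 2 * x < n ∧ n - x ∈ R)).image (fun x => (n - x, x))) ∪
          {(n / 2, n / 2)} := by
    rintro ⟨a, b⟩ hab
    rw [mem_filter, mem_product] at hab
    obtain ⟨⟨ha, hb⟩, hs⟩ := hab
    simp only at ha hb hs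
    rw [mem_union, mem_union, mem_image, mem_image, mem_singleton]
    rcases lt_trichotomy a b with h | h | h
    · left; left
      refine ⟨a, ?_, ?_⟩
      · rw [mem_filter]
        refine ⟨ha, by omega, ?_⟩
        have : n - a = b := by omega
        rwa [this]
      · exact Prod.ext rfl (by show n - a = b; omega)
    · right
      exact Prod.ext (by show a = n / 2; omega) (by show b = n / 2; omega)
    · left; right
      refine ⟨b, ?_, ?_⟩
      · rw [mem_filter]
        refine ⟨hb, by omega, ?_⟩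
        have : n - b = a := by omega
        rwa [this]
      · exact Prod.ext (by show n - b = a; omega) rfl
  unfold repF
  refine (card_le_card h).trans ?_
  refine (card_union_le _ _).trans ?_
  rw [card_singleton]
  have h1 := card_union_le ((R.filter (fun x => 2 * x < n ∧ n - x ∈ R)).image (fun x => (x, n - x)))
    ((R.filter (fun x => 2 * x < n ∧ n - x ∈ R)).image (fun x => (n - x, x)))
  have h2 : ((R.filter (fun x => 2 * x < n ∧ n - x ∈ R)).image (fun x => (x, n - x))).card
      ≤ pairs n R := card_image_le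
  have h3 : ((R.filter (fun x => 2 * x < n ∧ n - x ∈ R)).image (fun x => (n - x, x))).card
      ≤ pairs n R := card_image_le
  omega

lemma exists_of_pairs {R : Finset ℕ} {n : ℕ} (h : pairs n R ≠ 0) :
    ∃ x ∈ R, ∃ y ∈ R, x + y = n := by
  unfold pairs at h
  obtain ⟨x, hx⟩ := card_pos.mp (Nat.pos_of_ne_zero h)
  rw [mem_filter] at hx
  exact ⟨x, hx.1, n - x, hx.2.2, by omega⟩

/-- FB-F (choice of a random filler). -/
theorem filler_select (V : Finset ℕ) (p : ℕ → ℝ) (hp0 : ∀ x, 0 ≤ p x) (hp1 : ∀ x, p x ≤ 1)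
    {J : Type} (s : Finset J) (B : J → Finset ℕ) (μ A : J → ℝ) (y : J → ℕ)
    (hA : ∀ j ∈ s, 1 ≤ A j) (hμ : ∀ j ∈ s, ∑ x ∈ V ∩ B j, p x ≤ μ j)
    (hsum : ∑ j ∈ s, Real.exp (A j * μ j) / A j ^ y j < 1 / 3)
    (N : Finset ℕ) (M2 : ℝ) (Y : ℕ)
    (hM2 : ∀ n ∈ N, ∑ x ∈ V.filter (fun x => 2 * x < n ∧ n - x ∈ V), p x * p (n - x) ≤ M2)
    (hN : N.card * (Real.exp M2 / 2 ^ Y) < 1 / 3)
    (Cv : Finset ℕ) (M3 : ℝ)
    (hM3 : ∀ n ∈ Cv, M3 ≤ ∑ x ∈ V.filter (fun x => 2 * x < n ∧ n - x ∈ V), p x * p (n - x))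
    (hC : Cv.card * Real.exp (-M3) < 1 / 3) :
    ∃ R ⊆ V, (∀ j ∈ s, (R ∩ B j).card < y j) ∧ (∀ n ∈ N, repF R n < 2 * Y + 1) ∧
      ∀ n ∈ Cv, ∃ x ∈ R, ∃ y ∈ R, x + y = n := by
  classical
  -- the total of the potentials
  set Φ : Finset ℕ → ℝ := fun R => ∑ j ∈ s, A j ^ (R ∩ B j).card / A j ^ y j
    + ∑ n ∈ N, 2 ^ pairs n R / 2 ^ Y + ∑ n ∈ Cv, 0 ^ pairs n R with hΦ
  have hApos : ∀ j ∈ s, 0 < A j := fun j hj => lt_of_lt_of_le one_pos (hA j hj)
  have h1 : ∑ R ∈ V.powerset, wt p V R * Φ R < 1 := by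
    have e : ∑ R ∈ V.powerset, wt p V R * Φ R =
        ∑ j ∈ s, (∑ R ∈ V.powerset, wt p V R * A j ^ (R ∩ B j).card) / A j ^ y j
        + ∑ n ∈ N, (∑ R ∈ V.powerset, wt p V R * 2 ^ pairs n R) / 2 ^ Y
        + ∑ n ∈ Cv, ∑ R ∈ V.powerset, wt p V R * 0 ^ pairs n R := by
      simp only [hΦ, mul_add, sum_add_distrib, mul_sum]
      congr 1
      · congr 1
        · rw [sum_comm]
          apply sum_congr rfl
          intro j _
          rw [sum_div]
          apply sum_congr rfl
          intro R _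
          ring
        · rw [sum_comm]
          apply sum_congr rfl
          intro j _
          rw [sum_div]
          apply sum_congr rfl
          intro R _
          ring
      · rw [sum_comm]
    rw [e]
    have b1 : ∑ j ∈ s, (∑ R ∈ V.powerset, wt p V R * A j ^ (R ∩ B j).card) / A j ^ y j < 1 / 3 := by
      refine lt_of_le_of_lt (sum_le_sum (fun j hj => ?_)) hsum
      have := hApos j hj
      have h2 := wt_linear_le (p := p) (V := V) hp0 (B j) (A j) (μ j) (hA j hj) (hμ j hj)
      gcongr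
    have b2 : ∑ n ∈ N, (∑ R ∈ V.powerset, wt p V R * 2 ^ pairs n R) / 2 ^ Y < 1 / 3 := by
      refine lt_of_le_of_lt (sum_le_sum (g := fun _ => Real.exp M2 / 2 ^ Y) (fun n hn => ?_)) ?_
      · have h2 := wt_pairs_le (p := p) (V := V) hp0 n M2 (hM2 n hn)
        gcongr
      · rw [sum_const, nsmul_eq_mul]
        exact hN
    have b3 : ∑ n ∈ Cv, ∑ R ∈ V.powerset, wt p V R * 0 ^ pairs n R < 1 / 3 := by
      refine lt_of_le_of_lt (sum_le_sum (g := fun _ => Real.exp (-M3)) (fun n hn => ?_)) ?_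
      · exact wt_no_pairs_le (p := p) (V := V) hp0 hp1 n M3 (hM3 n hn)
      · rw [sum_const, nsmul_eq_mul]
        exact hC
    linarith
  -- a good set exists
  have h2 : ∃ R ∈ V.powerset, Φ R < 1 := by
    by_contra hcon
    push Not at hcon
    have : ∑ R ∈ V.powerset, wt p V R ≤ ∑ R ∈ V.powerset, wt p V R * Φ R := by
      apply sum_le_sum
      intro R hR
      have h3 := hcon R hR
      have h4 := wt_nonneg (p := p) hp0 hp1 V R
      nlinarith
    rw [wt_sum_one] at this
    linarith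
  obtain ⟨R, hR, hlt⟩ := h2
  rw [mem_powerset] at hR
  have n1 : ∀ j ∈ s, 0 ≤ A j ^ (R ∩ B j).card / A j ^ y j := by
    intro j hj
    have := hApos j hj
    positivity
  have n2 : ∀ n ∈ N, (0 : ℝ) ≤ 2 ^ pairs n R / 2 ^ Y := fun n _ => by positivity
  have n3 : ∀ n ∈ Cv, (0 : ℝ) ≤ 0 ^ pairs n R := fun n _ => by positivity
  have t1 := sum_nonneg n1
  have t2 := sum_nonneg n2
  have t3 := sum_nonneg n3
  simp only [hΦ] at hlt
  refine ⟨R, hR, ?_, ?_, ?_⟩
  · intro j hj
    by_contra hcon
    push Not at hcon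
    have h3 := single_le_sum n1 hj
    have h4 : 1 ≤ A j ^ (R ∩ B j).card / A j ^ y j := by
      rw [le_div_iff₀ (pow_pos (hApos j hj) _), one_mul]
      exact pow_le_pow_right₀ (hA j hj) hcon
    linarith
  · intro n hn
    by_contra hcon
    push Not at hcon
    have h3 := single_le_sum n2 hn
    have h5 := repF_le_pairs R n
    have h6 : Y ≤ pairs n R := by omega
    have h4 : (1 : ℝ) ≤ 2 ^ pairs n R / 2 ^ Y := by
      rw [le_div_iff₀ (by positivity), one_mul]
      exact pow_le_pow_right₀ (by norm_num) h6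
    linarith
  · intro n hn
    apply exists_of_pairs
    intro hcon
    have h3 := single_le_sum n3 hn
    rw [hcon, pow_zero] at h3
    linarith

end

end Pool.Agent.Helper53.FB
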