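import Pool.Agent.Helper82.WR.SigmaExists
import Pool.Agent.Helper52.WR.A1

/-!
# Random shifts: 0/1 events and weighted events
-/

set_option autoImplicit false

namespace Pool.Agent.Helper53.FB

open Finset
open Pool.Agent.Helper82.WR (wra2_mgf)
open Pool.Agent.Helper52.WR (two_rpow_le)

lemma mgf_count_le {ι : Type} [Fintype ι] [DecidableEq ι] (S : ℕ) (hS : 0 < S)
    (B : ι → Finset ℕ) (hB : ∀ i, B i ⊆ range S) (μ A : ℝ) (hA : 1 ≤ A)
    (hμ : ∑ i, ((B i).card : ℝ) ≤ μ * S) :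
    ∑ σ ∈ Fintype.piFinset (fun _ : ι => range S), A ^ (univ.filter (fun i => σ i ∈ B i)).card
      ≤ (S : ℝ) ^ (Fintype.card ι) * Real.exp (A * μ) := by
  have hS' : (0 : ℝ) < S := by exact_mod_cast hS
  have hApos : (0 : ℝ) < A := lt_of_lt_of_le one_pos hA
  rw [wra2_mgf S B hB A]
  have h3 : ∏ i, ((S : ℝ) + (A - 1) * ((B i).card : ℝ))
      ≤ ∏ i, ((S : ℝ) * Real.exp ((A - 1) * ((B i).card : ℝ) / S)) := by
    refine Finset.prod_le_prod (fun i _ => ?_) (fun i _ => ?_)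
    · have : (0 : ℝ) ≤ (A - 1) * ((B i).card : ℝ) :=
        mul_nonneg (by linarith) (Nat.cast_nonneg _)
      linarith
    · have h4 := Real.add_one_le_exp ((A - 1) * ((B i).card : ℝ) / S)
      have h5 : (S : ℝ) + (A - 1) * ((B i).card : ℝ)
          = S * ((A - 1) * ((B i).card : ℝ) / S + 1) := by
        field_simp
        ring
      rw [h5]
      exact mul_le_mul_of_nonneg_left h4 hS'.le
  refine h3.trans ?_
  rw [Finset.prod_mul_distrib, Finset.prod_const, ← Real.exp_sum, Finset.card_univ]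
  refine mul_le_mul_of_nonneg_left (Real.exp_le_exp.mpr ?_) (pow_nonneg hS'.le _)
  have h6 : ∑ i, (A - 1) * ((B i).card : ℝ) / S
      = (A - 1) * (∑ i, ((B i).card : ℝ)) / S := by
    rw [Finset.mul_sum, Finset.sum_div]
  rw [h6, div_le_iff₀ hS']
  have h7 : (0 : ℝ) ≤ ∑ i, ((B i).card : ℝ) :=
    Finset.sum_nonneg (fun i _ => Nat.cast_nonneg _)
  calc (A - 1) * (∑ i, ((B i).card : ℝ)) ≤ A * (∑ i, ((B i).card : ℝ)) :=
        mul_le_mul_of_nonneg_right (by linarith) h7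
    _ ≤ A * (μ * S) := mul_le_mul_of_nonneg_left hμ hApos.le
    _ = A * μ * S := by ring

lemma mgf_weight_le {ι : Type} [Fintype ι] [DecidableEq ι] (S : ℕ) (hS : 0 < S)
    (X : ι → ℕ → ℝ) (M ν : ℝ) (hM : 0 < M) (hX0 : ∀ i, ∀ v, v < S → 0 ≤ X i v)
    (hXM : ∀ i, ∀ v, v < S → X i v ≤ M) (hν : ∑ i, ∑ v ∈ range S, X i v ≤ ν * S) (z : ℕ) :
    ∑ σ ∈ Fintype.piFinset (fun _ : ι => range S),
      (2 : ℝ) ^ ((∑ i, X i (σ i)) / M - (2 * ν / M + z)) ≤ (S : ℝ) ^ (Fintype.card ι) / 2 ^ z := by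
  have hS' : (0 : ℝ) < S := by exact_mod_cast hS
  have h1 : ∀ σ : ι → ℕ, (2 : ℝ) ^ ((∑ i, X i (σ i)) / M - (2 * ν / M + z)) =
      (∏ i, (2 : ℝ) ^ (X i (σ i) / M)) / 2 ^ (2 * ν / M + (z : ℝ)) := by
    intro σ
    rw [Real.rpow_sub (by norm_num), sum_div, ← Real.rpow_sum_of_pos (by norm_num)]
  simp_rw [h1]
  rw [← sum_div]
  have h2 : ∑ σ ∈ Fintype.piFinset (fun _ : ι => range S), ∏ i, (2 : ℝ) ^ (X i (σ i) / M)
      = ∏ i, ∑ v ∈ range S, (2 : ℝ) ^ (X i v / M) :=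
    (Finset.prod_univ_sum (fun _ : ι => range S) (fun i v => (2 : ℝ) ^ (X i v / M))).symm
  rw [h2]
  have h3 : ∏ i, ∑ v ∈ range S, (2 : ℝ) ^ (X i v / M)
      ≤ ∏ i : ι, ((S : ℝ) * Real.exp ((∑ v ∈ range S, X i v) / (M * S))) := by
    apply prod_le_prod
    · intro i _
      exact sum_nonneg (fun v _ => by positivity)
    · intro i _
      calc ∑ v ∈ range S, (2 : ℝ) ^ (X i v / M) ≤ ∑ v ∈ range S, (1 + X i v / M) := by
            apply sum_le_sum
            intro v hv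
            rw [mem_range] at hv
            apply two_rpow_le
            · exact div_nonneg (hX0 i v hv) hM.le
            · rw [div_le_one hM]
              exact hXM i v hv
        _ = S * ((∑ v ∈ range S, X i v) / (M * S) + 1) := by
            rw [sum_add_distrib, sum_const, card_range, ← sum_div]
            field_simp
            ring
        _ ≤ _ := mul_le_mul_of_nonneg_left (Real.add_one_le_exp _) hS'.le
  have h4 : ∏ i : ι, ((S : ℝ) * Real.exp ((∑ v ∈ range S, X i v) / (M * S)))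
      ≤ (S : ℝ) ^ (Fintype.card ι) * Real.exp (ν / M) := by
    rw [prod_mul_distrib, prod_const, ← Real.exp_sum, card_univ]
    refine mul_le_mul_of_nonneg_left (Real.exp_le_exp.mpr ?_) (pow_nonneg hS'.le _)
    rw [← sum_div, div_le_div_iff₀ (by positivity) hM]
    nlinarith
  have h5 : Real.exp (ν / M) ≤ (2 : ℝ) ^ (2 * ν / M) := by
    by_cases hν0 : 0 ≤ ν / M
    · rw [show 2 * ν / M = 2 * (ν / M) by ring, Real.rpow_mul (by norm_num)]
      calc Real.exp (ν / M) = (Real.exp 1) ^ (ν / M) := by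
            rw [← Real.exp_mul, one_mul]
        _ ≤ ((2 : ℝ) ^ (2 : ℝ)) ^ (ν / M) := by
            apply Real.rpow_le_rpow (Real.exp_pos 1).le _ hν0
            have : (2 : ℝ) ^ (2 : ℝ) = 4 := by norm_num
            rw [this]
            linarith [Real.exp_one_lt_d9]
    · exfalso
      apply hν0
      apply div_nonneg _ hM.le
      have h6 : 0 ≤ ∑ i, ∑ v ∈ range S, X i v :=
        sum_nonneg (fun i _ => sum_nonneg (fun v hv => hX0 i v (mem_range.mp hv)))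
      by_contra hneg
      push Not at hneg
      nlinarith
  rw [div_le_div_iff₀ (by positivity) (by positivity), Real.rpow_add (by norm_num),
    Real.rpow_natCast]
  calc (∏ i, ∑ v ∈ range S, (2 : ℝ) ^ (X i v / M)) * 2 ^ z
      ≤ ((S : ℝ) ^ (Fintype.card ι) * Real.exp (ν / M)) * 2 ^ z := by
        gcongr
        exact h3.trans h4
    _ ≤ ((S : ℝ) ^ (Fintype.card ι) * (2 : ℝ) ^ (2 * ν / M)) * 2 ^ z := by gcongr
    _ = _ := by ring

/-- Random shifts with 0/1 events and weighted events. -/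
theorem sigma_exists2 {ι : Type} [Fintype ι] [DecidableEq ι] (S : ℕ) (hS : 0 < S)
    {J J' : Type} (s : Finset J) (B : J → ι → Finset ℕ) (hB : ∀ j ∈ s, ∀ i, B j i ⊆ range S)
    (μ A : J → ℝ) (y : J → ℕ) (hA : ∀ j ∈ s, 1 ≤ A j)
    (hμ : ∀ j ∈ s, ∑ i, ((B j i).card : ℝ) ≤ μ j * S)
    (s' : Finset J') (X : J' → ι → ℕ → ℝ) (M ν : J' → ℝ) (hM : ∀ j ∈ s', 0 < M j)
    (hX0 : ∀ j ∈ s', ∀ i, ∀ v, v < S → 0 ≤ X j i v)
    (hXM : ∀ j ∈ s', ∀ i, ∀ v, v < S → X j i v ≤ M j)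
    (hν : ∀ j ∈ s', ∑ i, ∑ v ∈ range S, X j i v ≤ ν j * S) (z : ℕ)
    (hsum : ∑ j ∈ s, Real.exp (A j * μ j) / A j ^ y j + (s'.card : ℝ) / 2 ^ z < 1) :
    ∃ σ : ι → ℕ, (∀ i, σ i < S) ∧
      (∀ j ∈ s, (univ.filter (fun i => σ i ∈ B j i)).card < y j) ∧
      ∀ j ∈ s', ∑ i, X j i (σ i) < 2 * ν j + z * M j := by
  classical
  have hS' : (0 : ℝ) < S := by exact_mod_cast hS
  set Ω := Fintype.piFinset (fun _ : ι => range S) with hΩdef
  have hΩ : (Ω.card : ℝ) = (S : ℝ) ^ (Fintype.card ι) := by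
    rw [hΩdef, Fintype.card_piFinset]
    simp
  have hpos : (0 : ℝ) < (S : ℝ) ^ (Fintype.card ι) := pow_pos hS' _
  set Φ : (ι → ℕ) → ℝ := fun σ =>
    ∑ j ∈ s, A j ^ (univ.filter (fun i => σ i ∈ B j i)).card / A j ^ y j
    + ∑ j ∈ s', (2 : ℝ) ^ ((∑ i, X j i (σ i)) / M j - (2 * ν j / M j + z)) with hΦ
  have hApos : ∀ j ∈ s, 0 < A j := fun j hj => lt_of_lt_of_le one_pos (hA j hj)
  have h1 : ∑ σ ∈ Ω, Φ σ < (S : ℝ) ^ (Fintype.card ι) := by
    have e : ∑ σ ∈ Ω, Φ σ =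
        ∑ j ∈ s, (∑ σ ∈ Ω, A j ^ (univ.filter (fun i => σ i ∈ B j i)).card) / A j ^ y j
        + ∑ j ∈ s', ∑ σ ∈ Ω, (2 : ℝ) ^ ((∑ i, X j i (σ i)) / M j - (2 * ν j / M j + z)) := by
      simp only [hΦ, sum_add_distrib]
      congr 1
      · rw [sum_comm]
        apply sum_congr rfl
        intro j _
        rw [sum_div]
      · rw [sum_comm]
    rw [e]
    have b1 : ∑ j ∈ s, (∑ σ ∈ Ω, A j ^ (univ.filter (fun i => σ i ∈ B j i)).card) / A j ^ y j
        ≤ (S : ℝ) ^ (Fintype.card ι) * ∑ j ∈ s, Real.exp (A j * μ j) / A j ^ y j := by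
      rw [mul_sum]
      apply sum_le_sum
      intro j hj
      have h2 := mgf_count_le S hS (B j) (hB j hj) (μ j) (A j) (hA j hj) (hμ j hj)
      have := hApos j hj
      rw [← mul_div_assoc]
      gcongr
    have b2 : ∑ j ∈ s', ∑ σ ∈ Ω, (2 : ℝ) ^ ((∑ i, X j i (σ i)) / M j - (2 * ν j / M j + z))
        ≤ (S : ℝ) ^ (Fintype.card ι) * (s'.card / 2 ^ z) := by
      calc _ ≤ ∑ j ∈ s', (S : ℝ) ^ (Fintype.card ι) / 2 ^ z := sum_le_sum (fun j hj =>
            mgf_weight_le S hS (X j) (M j) (ν j) (hM j hj) (hX0 j hj) (hXM j hj) (hν j hj) z)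
        _ = _ := by rw [sum_const, nsmul_eq_mul]; ring
    calc _ ≤ (S : ℝ) ^ (Fintype.card ι) * (∑ j ∈ s, Real.exp (A j * μ j) / A j ^ y j
          + (s'.card / 2 ^ z)) := by linarith
      _ < (S : ℝ) ^ (Fintype.card ι) * 1 := mul_lt_mul_of_pos_left hsum hpos
      _ = _ := mul_one _
  have h2 : ∃ σ ∈ Ω, Φ σ < 1 := by
    by_contra hcon
    push Not at hcon
    have : (Ω.card : ℝ) ≤ ∑ σ ∈ Ω, Φ σ := by
      calc (Ω.card : ℝ) = ∑ σ ∈ Ω, (1 : ℝ) := by rw [sum_const, nsmul_eq_mul, mul_one]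
        _ ≤ _ := sum_le_sum (fun σ hσ => hcon σ hσ)
    rw [hΩ] at this
    linarith
  obtain ⟨σ, hσ, hlt⟩ := h2
  have n1 : ∀ j ∈ s, 0 ≤ A j ^ (univ.filter (fun i => σ i ∈ B j i)).card / A j ^ y j := by
    intro j hj
    have := hApos j hj
    positivity
  have n2 : ∀ j ∈ s', (0 : ℝ) ≤ (2 : ℝ) ^ ((∑ i, X j i (σ i)) / M j - (2 * ν j / M j + z)) :=
    fun j _ => by positivity
  have t1 := sum_nonneg n1
  have t2 := sum_nonneg n2
  simp only [hΦ] at hlt
  refine ⟨σ, fun i => mem_range.mp (Fintype.mem_piFinset.mp hσ i), ?_, ?_⟩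
  · intro j hj
    by_contra hcon
    push Not at hcon
    have h3 := single_le_sum n1 hj
    have h4 : 1 ≤ A j ^ (univ.filter (fun i => σ i ∈ B j i)).card / A j ^ y j := by
      rw [le_div_iff₀ (pow_pos (hApos j hj) _), one_mul]
      exact pow_le_pow_right₀ (hA j hj) hcon
    linarith
  · intro j hj
    by_contra hcon
    push Not at hcon
    have h3 := single_le_sum n2 hj
    have hMj := hM j hj
    have h5 : 0 ≤ (∑ i, X j i (σ i)) / M j - (2 * ν j / M j + z) := by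
      rw [sub_nonneg, le_div_iff₀ hMj]
      calc (2 * ν j / M j + z) * M j = 2 * ν j + z * M j := by field_simp
        _ ≤ _ := hcon
    have h4 : (1 : ℝ) ≤ (2 : ℝ) ^ ((∑ i, X j i (σ i)) / M j - (2 * ν j / M j + z)) :=
      Real.one_le_rpow (by norm_num) h5
    linarith

end Pool.Agent.Helper53.FB
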